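import Pool.Agent.H558.TW.Stm2

set_option autoImplicit false

/-!
# Two patterns: residue classes (helper356, for helper558)
-/

namespace Pool.Agent.H356.TWCLN

open PowerSeries Finset Pool.Agent.R836.PP Pool.Agent.H558.KK Pool.Agent.H558.PP
open Pool.Agent.H558.TW
open Pool.Agent.K7.H72.MT hiding W few dis DD dis_stable dis_vary DD_stable DD_sum DD_block few_bad
  dis_le DD_le base count

theorem CC_add {L : ℕ} (c c' : Fin (L + 1) → ZMod 2) : CC (c + c') = CC c + CC c' := by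
  unfold CC
  rw [← sum_add_distrib]
  refine sum_congr rfl fun i _ => ?_
  rw [Pi.add_apply, add_smul]

/-- comparison of the two counts -/
theorem N2_cPP {b b' β ρ L t t₀ x i : ℕ} (hb : b' ≤ b) (hβ : β = (ρ + L) % 2 ^ b)
    (ht : t % 2 ^ b = t₀) (hx : 2 ^ (b + i) ≤ x) (c c' : Fin (L + 1) → ZMod 2)
    (w0 w1 : ℕ → ZMod 2) :
    N2 (2 ^ i) (node P2 b β t₀ (CC c)) (node P2 b β t₀ (CC c'))
      (fun a => w0 (β + 2 ^ b * a - L)) (fun a => w1 (β + 2 ^ b * a - L)) (t / 2 ^ b) ≤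
      L + cPP (2 ^ b') ρ c c' w0 w1 t x := by
  unfold N2 cPP
  have hP : 0 < 2 ^ b := by positivity
  have hβlt : β < 2 ^ b := by
    rw [hβ]
    exact Nat.mod_lt _ hP
  set T : Finset ℕ := {n ∈ range (x + 1) | n % 2 ^ b' = ρ % 2 ^ b' ∧ pat c (P2 ^ t) n ≠ w0 n ∧
    pat c' (P2 ^ t) n ≠ w1 n} with hT
  have hsub : {a ∈ range (2 ^ i) | coeff a (node P2 b β t₀ (CC c) * P2 ^ (t / 2 ^ b)) ≠
      w0 (β + 2 ^ b * a - L) ∧ coeff a (node P2 b β t₀ (CC c') * P2 ^ (t / 2 ^ b)) ≠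
      w1 (β + 2 ^ b * a - L)} ⊆ range L ∪ T.image fun n => (n + L - β) / 2 ^ b := by
    intro a ha
    obtain ⟨h1, h2, h3⟩ := mem_filter.1 ha
    rw [mem_range] at h1
    rw [mem_union]
    rcases Nat.lt_or_ge a L with h4 | h4
    · exact Or.inl (mem_range.2 h4)
    · right
      rw [mem_image]
      have h5 : a ≤ 2 ^ b * a := Nat.le_mul_of_pos_left _ hP
      have h6 : 2 ^ b * (a + 1) ≤ 2 ^ b * 2 ^ i := Nat.mul_le_mul_left _ h1
      rw [← pow_add] at h6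
      have h6' : 2 ^ b * (a + 1) = 2 ^ b * a + 2 ^ b := by ring
      have h7 : β + 2 ^ b * a - L + L = β + 2 ^ b * a := by omega
      refine ⟨β + 2 ^ b * a - L, ?_, ?_⟩
      · rw [hT, mem_filter, mem_range]
        refine ⟨by omega, ?_, ?_, ?_⟩
        · have g0 : (β + 2 ^ b * a - L + L) % 2 ^ b = (ρ + L) % 2 ^ b := by
            rw [h7, Nat.add_mul_mod_self_left, Nat.mod_eq_of_lt hβlt, hβ]
          have g1 : β + 2 ^ b * a - L + L ≡ ρ + L [MOD 2 ^ b] := g0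
          exact (Nat.ModEq.add_right_cancel' L g1).of_dvd (pow_dvd_pow 2 hb)
        · rw [← coeff_CC, h7, coeff_node P2 b β t a (CC c) hβlt, ← node_mod, ht]
          exact h2
        · rw [← coeff_CC, h7, coeff_node P2 b β t a (CC c') hβlt, ← node_mod, ht]
          exact h3
      · rw [h7, Nat.add_sub_cancel_left, Nat.mul_div_cancel_left _ hP]
  have h1 := (card_le_card hsub).trans (card_union_le _ _)
  have h2 := card_image_le (s := T) (f := fun n => (n + L - β) / 2 ^ b)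
  rw [card_range] at h1
  exact h1.trans (Nat.add_le_add_left h2 _)

open scoped Classical in
/-- one residue class modulo `2 ^ b` -/
theorem cls {b b' β ρ L t₀ : ℕ} (hb : b' ≤ b) (hβ : β = (ρ + L) % 2 ^ b)
    (c c' : Fin (L + 1) → ZMod 2) (w0 w1 : ℕ → ZMod 2)
    {ε δ : ℝ} (hδ : 0 < δ) (K x i : ℕ) (hx2 : 2 ^ (b + i) ≤ x) (hx3 : x < 2 ^ (b + i + 1))
    (hxK : x < 2 ^ K) (hL : (L : ℝ) ≤ δ / 2 * 2 ^ i)
    (h6 : (#{t ∈ range (2 ^ (K - b)) | (N2 (2 ^ i) (node P2 b β t₀ (CC c))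
        (node P2 b β t₀ (CC c')) (fun a => w0 (β + 2 ^ b * a - L))
        (fun a => w1 (β + 2 ^ b * a - L)) t : ℝ) < δ * 2 ^ i} : ℝ) ≤ ε * 2 ^ (K - b)) :
    (#{t ∈ range (2 ^ K) | t % 2 ^ b = t₀ ∧
      (cPP (2 ^ b') ρ c c' w0 w1 t x : ℝ) < δ / 2 ^ (b + 2) * x} : ℝ) ≤ ε * 2 ^ (K - b) := by
  have hbK : b + i < K := by
    have : 2 ^ (b + i) < 2 ^ K := by omega
    exact (Nat.pow_lt_pow_iff_right (by norm_num)).1 this
  have hP : 0 < 2 ^ b := by positivity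
  have hx3r : (x : ℝ) ≤ 2 ^ (b + 1) * 2 ^ i := by
    rw [← pow_add, show b + 1 + i = b + i + 1 by ring]
    exact_mod_cast hx3.le
  refine le_trans ?_ h6
  have hcard : #{t ∈ range (2 ^ K) | t % 2 ^ b = t₀ ∧
      (cPP (2 ^ b') ρ c c' w0 w1 t x : ℝ) < δ / 2 ^ (b + 2) * x} ≤
      #{t ∈ range (2 ^ (K - b)) | (N2 (2 ^ i) (node P2 b β t₀ (CC c))
        (node P2 b β t₀ (CC c')) (fun a => w0 (β + 2 ^ b * a - L))
        (fun a => w1 (β + 2 ^ b * a - L)) t : ℝ) < δ * 2 ^ i} := by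
    refine card_le_card_of_injOn (fun t => t / 2 ^ b) ?_ ?_
    · intro t ht
      obtain ⟨htK, ht0, h3⟩ := mem_filter.1 ht
      rw [mem_range] at htK
      have hKb : 2 ^ K = 2 ^ b * 2 ^ (K - b) := by
        rw [← pow_add]
        congr 1
        omega
      rw [mem_coe, mem_filter, mem_range]
      refine ⟨Nat.div_lt_of_lt_mul (by rw [← hKb]; exact htK), ?_⟩
      have h4 := N2_cPP (i := i) hb hβ ht0 hx2 c c' w0 w1
      have h5 : (N2 (2 ^ i) (node P2 b β t₀ (CC c)) (node P2 b β t₀ (CC c'))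
          (fun a => w0 (β + 2 ^ b * a - L)) (fun a => w1 (β + 2 ^ b * a - L)) (t / 2 ^ b) : ℝ) ≤
          L + cPP (2 ^ b') ρ c c' w0 w1 t x := by
        exact_mod_cast h4
      calc _ ≤ (L : ℝ) + cPP (2 ^ b') ρ c c' w0 w1 t x := h5
        _ < δ / 2 * 2 ^ i + δ / 2 ^ (b + 2) * x := by linarith
        _ ≤ δ / 2 * 2 ^ i + δ / 2 ^ (b + 2) * (2 ^ (b + 1) * 2 ^ i) := by gcongr
        _ = δ * 2 ^ i := by
            rw [pow_succ 2 (b + 1)]
            field_simp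
            ring
    · intro t1 h1 t2 h2 h
      have h1' := (mem_filter.1 (mem_coe.1 h1)).2.1
      have h2' := (mem_filter.1 (mem_coe.1 h2)).2.1
      simp only at h
      rw [← Nat.mod_add_div t1 (2 ^ b), ← Nat.mod_add_div t2 (2 ^ b), h, h1', h2']
  exact_mod_cast hcard

/-- **CLN** -/
theorem cln (hadd : S_ADD) (hsc : S_SCN) (hnz : S_NZC) : S_CLN := by
  classical
  intro b' ε hε
  obtain ⟨δ, hδ, hSC⟩ := hsc ε hε
  set b : ℕ := b' + 1 with hb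
  have hP : 0 < 2 ^ b := by positivity
  have h2b : 2 ∣ 2 ^ b := dvd_pow_self 2 (by omega)
  have hbb : b' ≤ b := by omega
  have hb1 : 1 ≤ b := by omega
  refine ⟨δ / 2 ^ (b + 2), by positivity, ?_⟩
  intro ρ L c c' hc hc' hcc
  set β : ℕ := (ρ + L) % 2 ^ b with hβ
  have hβlt : β < 2 ^ b := Nat.mod_lt _ hP
  have hex : ∀ t₀ : ℕ, ∃ i0 : ℕ, t₀ % 2 = 1 → t₀ < 2 ^ b → ∀ (w0 w1 : ℕ → ZMod 2) (K i : ℕ),
      i0 ≤ i → i ≤ K → (#{t ∈ range (2 ^ K) | (N2 (2 ^ i) (node P2 b β t₀ (CC c))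
        (node P2 b β t₀ (CC c')) (fun a => w0 (β + 2 ^ b * a - L))
        (fun a => w1 (β + 2 ^ b * a - L)) t : ℝ) < δ * 2 ^ i} : ℝ) ≤ ε * 2 ^ K := by
    intro t₀
    by_cases h1 : t₀ % 2 = 1
    · by_cases h2 : t₀ < 2 ^ b
      · have hs : node P2 b β t₀ (CC c) + node P2 b β t₀ (CC c') =
            node P2 b β t₀ (CC (c + c')) := by
          rw [CC_add, hadd]
        obtain ⟨i0, hi0⟩ := hSC (node P2 b β t₀ (CC c)) (node P2 b β t₀ (CC c'))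
          (hnz b β t₀ L c hc hb1 hβlt h1 h2) (hnz b β t₀ L c' hc' hb1 hβlt h1 h2)
          (by rw [hs]; exact hnz b β t₀ L (c + c') hcc hb1 hβlt h1 h2)
        exact ⟨i0, fun _ _ w0 w1 K i h3 h4 => hi0 (fun a => w0 (β + 2 ^ b * a - L))
          (fun a => w1 (β + 2 ^ b * a - L)) K i h3 h4⟩
      · exact ⟨0, fun _ h => absurd h h2⟩
    · exact ⟨0, fun h => absurd h h1⟩
  choose I hI using hex
  obtain ⟨n1, hn1⟩ := exists_nat_gt ((L : ℝ) / (δ / 2))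
  set i1 : ℕ := n1 + ∑ t₀ ∈ range (2 ^ b), I t₀ with hi1
  refine ⟨2 ^ (b + i1), ?_⟩
  intro w0 w1 x K hx0 hxK
  have hx1 : 1 ≤ x := le_trans Nat.one_le_two_pow hx0
  have hlog : b + i1 ≤ Nat.log 2 x := Nat.le_log_of_pow_le (by norm_num) hx0
  obtain ⟨i, hi⟩ := Nat.exists_eq_add_of_le (show b ≤ Nat.log 2 x by omega)
  have hii : i1 ≤ i := by omega
  have hx2 : 2 ^ (b + i) ≤ x := by
    rw [← hi]
    exact Nat.pow_log_le_self 2 (by omega)
  have hx3 : x < 2 ^ (b + i + 1) := by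
    rw [← hi]
    exact Nat.lt_pow_succ_log_self (by norm_num) _
  have hbK : b + i < K := by
    have : 2 ^ (b + i) < 2 ^ K := by omega
    exact (Nat.pow_lt_pow_iff_right (by norm_num)).1 this
  have hL : (L : ℝ) ≤ δ / 2 * 2 ^ i := by
    have h1 : (n1 : ℝ) ≤ 2 ^ i := by
      have h2 : n1 ≤ i := by omega
      have h3 : n1 ≤ 2 ^ i := h2.trans (Nat.lt_two_pow_self).le
      exact_mod_cast h3
    rw [div_lt_iff₀ (by positivity)] at hn1
    nlinarith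
  have hcl : ∀ t₀, t₀ % 2 = 1 → t₀ < 2 ^ b → (#{t ∈ range (2 ^ K) | t % 2 ^ b = t₀ ∧
      (cPP (2 ^ b') ρ c c' w0 w1 t x : ℝ) < δ / 2 ^ (b + 2) * x} : ℝ) ≤ ε * 2 ^ (K - b) := by
    intro t₀ h1 h2
    refine cls hbb hβ c c' w0 w1 hδ K x i hx2 hx3 hxK hL ?_
    have h3 : I t₀ ≤ i := by
      have h4 : I t₀ ≤ ∑ t₀ ∈ range (2 ^ b), I t₀ :=
        single_le_sum (f := I) (fun _ _ => Nat.zero_le _) (mem_range.2 h2)
      omega
    exact hI t₀ h1 h2 w0 w1 (K - b) i h3 (by omega)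
  have hsub : {t ∈ range (2 ^ K) | t % 2 = 1 ∧
      (cPP (2 ^ b') ρ c c' w0 w1 t x : ℝ) < δ / 2 ^ (b + 2) * x} ⊆
      ({t₀ ∈ range (2 ^ b) | t₀ % 2 = 1}).biUnion fun t₀ => {t ∈ range (2 ^ K) | t % 2 ^ b = t₀ ∧
        (cPP (2 ^ b') ρ c c' w0 w1 t x : ℝ) < δ / 2 ^ (b + 2) * x} := by
    intro t ht
    obtain ⟨h1, h2, h5⟩ := mem_filter.1 ht
    rw [mem_biUnion]
    refine ⟨t % 2 ^ b, ?_, ?_⟩
    · rw [mem_filter, mem_range]
      refine ⟨Nat.mod_lt _ hP, ?_⟩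
      rw [Nat.mod_mod_of_dvd _ h2b]
      exact h2
    · rw [mem_filter]
      exact ⟨h1, rfl, h5⟩
  have h1 := (card_le_card hsub).trans card_biUnion_le
  calc (#{t ∈ range (2 ^ K) | t % 2 = 1 ∧
      (cPP (2 ^ b') ρ c c' w0 w1 t x : ℝ) < δ / 2 ^ (b + 2) * x} : ℝ) ≤
      ((∑ t₀ ∈ range (2 ^ b) with t₀ % 2 = 1, #{t ∈ range (2 ^ K) | t % 2 ^ b = t₀ ∧
        (cPP (2 ^ b') ρ c c' w0 w1 t x : ℝ) < δ / 2 ^ (b + 2) * x} : ℕ) : ℝ) := by
        exact_mod_cast h1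
    _ = ∑ t₀ ∈ range (2 ^ b) with t₀ % 2 = 1, (#{t ∈ range (2 ^ K) | t % 2 ^ b = t₀ ∧
        (cPP (2 ^ b') ρ c c' w0 w1 t x : ℝ) < δ / 2 ^ (b + 2) * x} : ℝ) := by
        push_cast
        rfl
    _ ≤ ∑ t₀ ∈ range (2 ^ b) with t₀ % 2 = 1, ε * 2 ^ (K - b) := by
        refine sum_le_sum fun t₀ ht => ?_
        rw [mem_filter, mem_range] at ht
        exact hcl t₀ ht.2 ht.1
    _ ≤ ∑ t₀ ∈ range (2 ^ b), ε * 2 ^ (K - b) := by
        refine sum_le_sum_of_subset_of_nonneg (filter_subset _ _) fun t₀ _ _ => ?_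
        positivity
    _ = ε * 2 ^ K := by
        rw [sum_const, card_range, nsmul_eq_mul]
        push_cast
        have h7 : (2 : ℝ) ^ K = 2 ^ b * 2 ^ (K - b) := by
          rw [← pow_add]
          congr 1
          omega
        rw [h7]
        ring

end Pool.Agent.H356.TWCLN
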